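import Mathlib

/-!
# MP_2c59d0_an : every positive solution of `x_{n+1} = γ + x_{n-2m} / x_{n-1}` is bounded

Put `T = 2m+1` and shift indices: `x_{n+T} = γ + x_n / x_{n+T-2}`.  If a record value `M` is
huge then `x` has been large along `t, t-T, t-2T, …` for a long time.  Hence `x` was close to
`γ < 1` along `t+2-jT`, then growing and large along `t+4-jT`, then small along `t+6-jT`, and so
on; as `T` is odd this reaches `t-2-jT`, along which `x` is large, and so `x_t ≤ γ + M/R`, a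
contradiction.
-/

namespace Pool.Agent.Results.MP_2c59d0_an.AlwaysBounded

/-- `x` (indexed so that `x 0, ..., x (2m)` are the positive initial values) is a solution of
`x_{n+1} = γ + x_{n-2m} / x_{n-1}`. -/
def IsSolution (γ : ℝ) (m : ℕ) (x : ℕ → ℝ) : Prop :=
  (∀ i ≤ 2 * m, 0 < x i) ∧ ∀ n, x (n + 2 * m + 1) = γ + x n / x (n + 2 * m - 1)

section

variable {γ : ℝ} {m : ℕ} {x : ℕ → ℝ}

lemma pos (hγ : 0 < γ) (hm : 1 ≤ m) (hx : IsSolution γ m x) : ∀ n, 0 < x n := by
  intro n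
  induction n using Nat.strong_induction_on with
  | _ n ih =>
  by_cases hn : n ≤ 2 * m
  · exact hx.1 n hn
  · obtain ⟨k, rfl⟩ : ∃ k, n = k + 2 * m + 1 := ⟨n - (2 * m + 1), by omega⟩
    rw [hx.2 k]
    have h1 := ih k (by omega)
    have h2 := ih (k + 2 * m - 1) (by omega)
    positivity

/-- recurrence in the form `x (s + 2 + T) = γ + x (s + 2) / x (s + T)`, `T = 2m+1` -/
lemma step (hm : 1 ≤ m) (hx : IsSolution γ m x) (s : ℕ) :
    x (s + 2 + (2 * m + 1)) = γ + x (s + 2) / x (s + (2 * m + 1)) := by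
  have h := hx.2 (s + 2)
  have e1 : s + 2 + 2 * m + 1 = s + 2 + (2 * m + 1) := by ring
  have e2 : s + 2 + 2 * m - 1 = s + (2 * m + 1) := by omega
  rw [e1, e2] at h
  exact h

/-- If `x` is at least `R` along `s + jT` for `a ≤ j ≤ J`, then it is at most `q` along
`s + 2 + jT` for `a + n ≤ j ≤ J`. -/
lemma small_stage (hγ : 0 < γ) (hm : 1 ≤ m) (hx : IsSolution γ m x) (R q M : ℝ) (hR : 1 < R)
    (hRq : γ * R / (R - 1) ≤ (γ + q) / 2) (s a J n : ℕ)
    (hbig : ∀ j, a ≤ j → j ≤ J → R ≤ x (s + j * (2 * m + 1)))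
    (hM : x (s + 2 + a * (2 * m + 1)) ≤ M) (hn : 2 * M ≤ (q - γ) * R ^ n) :
    ∀ j, a + n ≤ j → j ≤ J → x (s + 2 + j * (2 * m + 1)) ≤ q := by
  have hp := pos hγ hm hx
  have hR0 : 0 < R := by linarith
  have key : ∀ i, a + i ≤ J →
      x (s + 2 + (a + i) * (2 * m + 1)) ≤ γ * R / (R - 1) + M / R ^ i := by
    intro i
    induction i with
    | zero =>
      intro _
      rw [add_zero, pow_zero, div_one]
      have : 0 ≤ γ * R / (R - 1) := div_nonneg (by positivity) (by linarith)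
      linarith
    | succ i ih =>
      intro hi
      have h1 := ih (by omega)
      have h2 := step hm hx (s + (a + i) * (2 * m + 1))
      have e1 : s + (a + i) * (2 * m + 1) + 2 + (2 * m + 1) =
          s + 2 + (a + (i + 1)) * (2 * m + 1) := by ring
      have e2 : s + (a + i) * (2 * m + 1) + 2 = s + 2 + (a + i) * (2 * m + 1) := by ring
      have e3 : s + (a + i) * (2 * m + 1) + (2 * m + 1) = s + (a + (i + 1)) * (2 * m + 1) := by
        ring
      rw [e1, e2, e3] at h2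
      have h3 := hbig (a + (i + 1)) (by omega) hi
      have h4 : x (s + 2 + (a + i) * (2 * m + 1)) / x (s + (a + (i + 1)) * (2 * m + 1)) ≤
          x (s + 2 + (a + i) * (2 * m + 1)) / R :=
        div_le_div_of_nonneg_left (hp _).le hR0 h3
      have h5 : x (s + 2 + (a + i) * (2 * m + 1)) / R ≤
          (γ * R / (R - 1) + M / R ^ i) / R := div_le_div_of_nonneg_right h1 hR0.le
      have h6 : γ + (γ * R / (R - 1) + M / R ^ i) / R = γ * R / (R - 1) + M / R ^ (i + 1) := by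
        have : R - 1 ≠ 0 := by linarith
        field_simp
        ring
      rw [h2]
      linarith
  intro j hj1 hj2
  obtain ⟨i, rfl⟩ : ∃ i, j = a + i := ⟨j - a, by omega⟩
  have h1 := key i hj2
  have hin : n ≤ i := by omega
  have hM0 : 0 ≤ M := (hp _).le.trans hM
  have h2 : M / R ^ i ≤ (q - γ) / 2 := by
    rw [div_le_iff₀ (by positivity)]
    have h3 : R ^ n ≤ R ^ i := pow_le_pow_right₀ hR.le hin
    have hqγ : 0 ≤ q - γ := by
      have h7 : γ ≤ γ * R / (R - 1) := by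
        rw [le_div_iff₀ (by linarith)]
        nlinarith
      linarith
    have h4 := mul_le_mul_of_nonneg_left h3 hqγ
    linarith
  linarith

/-- If `x` is at most `q < 1` along `s + jT` for `a ≤ j ≤ J`, then it is at least `R` along
`s + 2 + jT` for `a + n ≤ j ≤ J`. -/
lemma big_stage (hγ : 0 < γ) (hm : 1 ≤ m) (hx : IsSolution γ m x) (R q : ℝ) (hq0 : 0 < q)
    (hq1 : q < 1) (s a J n : ℕ) (hsγ : γ ≤ x (s + 2 + a * (2 * m + 1)))
    (hsmall : ∀ j, a ≤ j → j ≤ J → x (s + j * (2 * m + 1)) ≤ q)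
    (hn : R * q ^ n ≤ γ) :
    ∀ j, a + n ≤ j → j ≤ J → R ≤ x (s + 2 + j * (2 * m + 1)) := by
  have hp := pos hγ hm hx
  have key : ∀ i, a + i ≤ J → γ / q ^ i ≤ x (s + 2 + (a + i) * (2 * m + 1)) := by
    intro i
    induction i with
    | zero => intro _; simpa using hsγ
    | succ i ih =>
      intro hi
      have h1 := ih (by omega)
      have h2 := step hm hx (s + (a + i) * (2 * m + 1))
      have e1 : s + (a + i) * (2 * m + 1) + 2 + (2 * m + 1) =
          s + 2 + (a + (i + 1)) * (2 * m + 1) := by ring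
      have e2 : s + (a + i) * (2 * m + 1) + 2 = s + 2 + (a + i) * (2 * m + 1) := by ring
      have e3 : s + (a + i) * (2 * m + 1) + (2 * m + 1) = s + (a + (i + 1)) * (2 * m + 1) := by
        ring
      rw [e1, e2, e3] at h2
      have h3 := hsmall (a + (i + 1)) (by omega) hi
      have h4 : (γ / q ^ i) / q ≤
          x (s + 2 + (a + i) * (2 * m + 1)) / x (s + (a + (i + 1)) * (2 * m + 1)) :=
        div_le_div₀ (hp _).le h1 (hp _) h3
      have h5 : (γ / q ^ i) / q = γ / q ^ (i + 1) := by rw [pow_succ, div_div]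
      rw [h2]
      linarith
  intro j hj1 hj2
  obtain ⟨i, rfl⟩ : ∃ i, j = a + i := ⟨j - a, by omega⟩
  have h1 := key i hj2
  have hin : n ≤ i := by omega
  have h2 : q ^ i ≤ q ^ n := pow_le_pow_of_le_one hq0.le hq1.le hin
  rcases le_or_gt R 0 with hR | hR
  · exact hR.trans (hp _).le
  · have h3 : R * q ^ i ≤ γ := (mul_le_mul_of_nonneg_left h2 hR.le).trans hn
    have h4 : R ≤ γ / q ^ i := by rwa [le_div_iff₀ (by positivity)]
    exact h4.trans h1

lemma ge_gamma (hγ : 0 < γ) (hm : 1 ≤ m) (hx : IsSolution γ m x) (n : ℕ) (hn : 2 * m + 1 ≤ n) :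
    γ ≤ x n := by
  obtain ⟨k, rfl⟩ : ∃ k, n = k + 2 * m + 1 := ⟨n - (2 * m + 1), by omega⟩
  rw [hx.2 k]
  have := div_nonneg (pos hγ hm hx k).le (pos hγ hm hx (k + 2 * m - 1)).le
  linarith

/-- The alternating stages. -/
lemma stages (hγ : 0 < γ) (hm : 1 ≤ m) (hx : IsSolution γ m x) (R q M : ℝ) (hR : 1 < R)
    (hRq : γ * R / (R - 1) ≤ (γ + q) / 2) (hq0 : 0 < q) (hq1 : q < 1) (s J n₁ n₂ : ℕ)
    (hn₁ : 2 * M ≤ (q - γ) * R ^ n₁) (hn₁0 : 1 ≤ n₁) (hn₂ : R * q ^ n₂ ≤ γ)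
    (hJ : J = m * (n₁ + n₂) + 2)
    (hrec : ∀ i ≤ s + J * (2 * m + 1), x i ≤ M)
    (hbig : ∀ j ≤ J, R ≤ x (s + j * (2 * m + 1))) :
    ∀ i ≤ m, ∀ j, i * (n₁ + n₂) ≤ j → j ≤ J → R ≤ x (s + 4 * i + j * (2 * m + 1)) := by
  intro i
  induction i with
  | zero =>
    intro _ j _ hj
    simpa using hbig j hj
  | succ i ih =>
    intro hi
    have h1 := ih (by omega)
    have hle : i * (n₁ + n₂) + (n₁ + n₂) ≤ m * (n₁ + n₂) := by
      have : (i + 1) * (n₁ + n₂) ≤ m * (n₁ + n₂) := Nat.mul_le_mul_right _ hi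
      linarith [add_mul i 1 (n₁ + n₂)]
    have h2 := small_stage hγ hm hx R q M hR hRq (s + 4 * i) (i * (n₁ + n₂)) J n₁ h1 (by
      apply hrec
      have h3 : i * (n₁ + n₂) + 2 ≤ J := by omega
      have h4 : (i * (n₁ + n₂) + 2) * (2 * m + 1) ≤ J * (2 * m + 1) := Nat.mul_le_mul_right _ h3
      have h5 : (i * (n₁ + n₂) + 2) * (2 * m + 1) = i * (n₁ + n₂) * (2 * m + 1) + (4 * m + 2) := by
        ring
      omega) hn₁
    have h3 := big_stage hγ hm hx R q hq0 hq1 (s + 4 * i + 2) (i * (n₁ + n₂) + n₁) J n₂ (by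
      apply ge_gamma hγ hm hx
      have h4 : 1 * (2 * m + 1) ≤ (i * (n₁ + n₂) + n₁) * (2 * m + 1) :=
        Nat.mul_le_mul_right _ (by omega)
      omega) h2 hn₂
    intro j hj1 hj2
    have e1 : i * (n₁ + n₂) + n₁ + n₂ ≤ j := by
      have : (i + 1) * (n₁ + n₂) = i * (n₁ + n₂) + n₁ + n₂ := by ring
      omega
    have h4 := h3 j e1 hj2
    have e2 : s + 4 * i + 2 + 2 + j * (2 * m + 1) = s + 4 * (i + 1) + j * (2 * m + 1) := by ring
    rwa [e2] at h4

/-- The backward chain from a record. -/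
lemma chain (hγ : 0 < γ) (hγ1 : γ < 1) (hm : 1 ≤ m) (hx : IsSolution γ m x) (t : ℕ) :
    ∀ i : ℕ, i * (2 * m + 1) + 2 ≤ t →
      γ ^ i * x t - γ ^ 2 / (1 - γ) ≤ x (t - i * (2 * m + 1)) := by
  intro i
  have hK : 0 ≤ γ ^ 2 / (1 - γ) := div_nonneg (sq_nonneg γ) (by linarith)
  induction i with
  | zero => intro _; simp only [pow_zero, one_mul, zero_mul, Nat.sub_zero]; linarith
  | succ i ih =>
    intro hi
    have e0 : (i + 1) * (2 * m + 1) = i * (2 * m + 1) + (2 * m + 1) := by ring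
    have h1 := ih (by omega)
    have h2 := hx.2 (t - (i + 1) * (2 * m + 1))
    have e1 : t - (i + 1) * (2 * m + 1) + 2 * m + 1 = t - i * (2 * m + 1) := by omega
    have h3 : γ ≤ x (t - (i + 1) * (2 * m + 1) + 2 * m - 1) := by
      by_cases hlt : 2 * m + 1 ≤ t - (i + 1) * (2 * m + 1) + 2 * m - 1
      · exact ge_gamma hγ hm hx _ hlt
      · omega
    rw [e1] at h2
    have hp := pos hγ hm hx (t - (i + 1) * (2 * m + 1))
    have h4 : x (t - (i + 1) * (2 * m + 1)) / x (t - (i + 1) * (2 * m + 1) + 2 * m - 1) ≤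
        x (t - (i + 1) * (2 * m + 1)) / γ := div_le_div_of_nonneg_left hp.le hγ h3
    have h5 : γ ^ i * x t - γ ^ 2 / (1 - γ) - γ ≤ x (t - (i + 1) * (2 * m + 1)) / γ := by linarith
    rw [le_div_iff₀ hγ] at h5
    have h6 : γ ^ (i + 1) * x t - γ ^ 2 / (1 - γ) =
        (γ ^ i * x t - γ ^ 2 / (1 - γ) - γ) * γ := by
      have : 1 - γ ≠ 0 := by linarith
      field_simp
      ring
    rw [h6]
    exact h5

lemma exists_record (hunb : ∀ C : ℝ, ∃ n, C < x n) (C : ℝ) :
    ∃ t, C < x t ∧ ∀ i ≤ t, x i ≤ x t := by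
  obtain ⟨n, hn⟩ := hunb C
  obtain ⟨t, ht, hmax⟩ := Finset.exists_max_image (Finset.range (n + 1)) x ⟨0, by simp⟩
  refine ⟨t, lt_of_lt_of_le hn (hmax n (by simp)), fun i hi => hmax i ?_⟩
  rw [Finset.mem_range] at ht ⊢
  omega

/-- the case `γ < 1` -/
lemma bounded_lt (hγ : 0 < γ) (hγ1 : γ < 1) (hm : 1 ≤ m) (hx : IsSolution γ m x) :
    ∃ C, ∀ n, x n ≤ C := by
  by_contra hcon
  push Not at hcon
  have hp := pos hγ hm hx
  have hg1 : 0 < 1 - γ := by linarith
  set q : ℝ := (1 + γ) / 2 with hq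
  have hq0 : 0 < q := by rw [hq]; linarith
  have hq1 : q < 1 := by rw [hq]; linarith
  have hqγ : 0 < q - γ := by rw [hq]; linarith
  set R : ℝ := 1 + 4 * γ / (1 - γ) + 2 / γ ^ m with hRdef
  have ha1 : 0 < 4 * γ / (1 - γ) := by positivity
  have ha2 : 0 < 2 / γ ^ m := by positivity
  have hR1 : 1 < R := by rw [hRdef]; linarith
  have hR0 : 0 < R := by linarith
  have hRq : γ * R / (R - 1) ≤ (γ + q) / 2 := by
    rw [div_le_iff₀ (by linarith), hq]
    have h1 : 4 * γ / (1 - γ) ≤ R - 1 := by rw [hRdef]; linarith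
    rw [div_le_iff₀ hg1] at h1
    nlinarith
  have hγR : 2 ≤ γ ^ m * R := by
    have h1 : 2 / γ ^ m ≤ R := by rw [hRdef]; linarith
    rw [div_le_iff₀ (by positivity)] at h1
    linarith
  obtain ⟨n₂, hn₂⟩ : ∃ n₂ : ℕ, R * q ^ n₂ ≤ γ := by
    obtain ⟨n, hn⟩ := exists_pow_lt_of_lt_one (show 0 < γ / R by positivity) hq1
    refine ⟨n, ?_⟩
    rw [lt_div_iff₀ hR0] at hn
    linarith
  set K : ℝ := γ ^ 2 / (1 - γ) with hK
  have hK0 : 0 ≤ K := by positivity
  set X0 : ℝ := ∑ i ∈ Finset.range (2 * m + 3), x i with hX0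
  have hX00 : 0 ≤ X0 := Finset.sum_nonneg fun i _ => (hp i).le
  set c₀ : ℝ := γ ^ (m * n₂ + 2) * (q - γ) / (2 * R) with hc₀
  have hc₀0 : 0 < c₀ := by positivity
  obtain ⟨N₀, hN₀⟩ : ∃ N₀ : ℕ, (R + K + X0 + 1) / c₀ < 2 ^ N₀ :=
    pow_unbounded_of_one_lt _ one_lt_two
  rw [div_lt_iff₀ hc₀0] at hN₀
  obtain ⟨t, ht, hrec⟩ := exists_record hcon (max ((q - γ) * R ^ N₀) (γ * R / (R - 1) + 1))
  set M := x t with hM
  have hM1 : (q - γ) * R ^ N₀ < M := lt_of_le_of_lt (le_max_left _ _) ht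
  have hM2 : γ * R / (R - 1) + 1 < M := lt_of_le_of_lt (le_max_right _ _) ht
  have hM0 : 0 < M := hp t
  -- `n₁`
  have hex : ∃ n : ℕ, 2 * M ≤ (q - γ) * R ^ n := by
    obtain ⟨n, hn⟩ := pow_unbounded_of_one_lt (2 * M / (q - γ)) hR1
    refine ⟨n, ?_⟩
    rw [div_lt_iff₀ hqγ] at hn
    linarith
  classical
  set n₁ := Nat.find hex with hn₁def
  have hn₁ : 2 * M ≤ (q - γ) * R ^ n₁ := Nat.find_spec hex
  have hN₁ : N₀ < n₁ := by
    by_contra hle
    push Not at hle
    have h1 : R ^ n₁ ≤ R ^ N₀ := pow_le_pow_right₀ hR1.le hle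
    have h2 := mul_le_mul_of_nonneg_left h1 hqγ.le
    linarith
  have hn₁0 : 1 ≤ n₁ := by omega
  have hn₁' : (q - γ) * R ^ (n₁ - 1) < 2 * M := by
    have := Nat.find_min hex (show n₁ - 1 < n₁ by omega)
    exact not_le.1 this
  set J := m * (n₁ + n₂) + 2 with hJ
  have hJM : R + K + X0 + 1 < γ ^ J * M := by
    have h1 : (q - γ) * R ^ n₁ / (2 * R) < M := by
      rw [div_lt_iff₀ (by positivity)]
      have h2 : R ^ n₁ = R ^ (n₁ - 1) * R := by
        rw [← pow_succ]; congr 1; omega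
      rw [h2]
      nlinarith
    have h2 : γ ^ J * ((q - γ) * R ^ n₁ / (2 * R)) = (γ ^ m * R) ^ n₁ * c₀ := by
      rw [hJ, hc₀, mul_pow, ← pow_mul, show m * (n₁ + n₂) + 2 = m * n₁ + (m * n₂ + 2) by ring,
        pow_add]
      ring
    have h3 : (2 : ℝ) ^ N₀ ≤ (γ ^ m * R) ^ n₁ :=
      calc (2 : ℝ) ^ N₀ ≤ 2 ^ n₁ := pow_le_pow_right₀ one_le_two hN₁.le
        _ ≤ _ := pow_le_pow_left₀ (by norm_num) hγR n₁
    have h4 : 0 < γ ^ J := by positivity
    calc R + K + X0 + 1 < 2 ^ N₀ * c₀ := hN₀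
      _ ≤ (γ ^ m * R) ^ n₁ * c₀ := mul_le_mul_of_nonneg_right h3 hc₀0.le
      _ = γ ^ J * ((q - γ) * R ^ n₁ / (2 * R)) := h2.symm
      _ ≤ γ ^ J * M := mul_le_mul_of_nonneg_left h1.le h4.le
  have hchain := chain hγ hγ1 hm hx t
  -- `t` is large
  have htJ : J * (2 * m + 1) + 2 ≤ t := by
    by_contra hlt
    push Not at hlt
    by_cases ht2 : t < 2
    · have h1 : M ≤ X0 :=
        Finset.single_le_sum (f := fun i => x i) (fun i _ => (hp i).le)
          (Finset.mem_range.2 (by omega))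
      have h2 : γ ^ J * M ≤ M := mul_le_of_le_one_left hM0.le (pow_le_one₀ hγ.le hγ1.le)
      linarith
    · push Not at ht2
      set j := (t - 2) / (2 * m + 1) with hj
      have hj1 : j * (2 * m + 1) ≤ t - 2 := Nat.div_mul_le_self _ _
      have hj2 : t - 2 < (j + 1) * (2 * m + 1) := by
        have := Nat.lt_div_mul_add (a := t - 2) (b := 2 * m + 1) (by omega)
        rw [add_mul, one_mul]
        exact this
      have hjJ : j ≤ J := by
        by_contra hlt2
        push Not at hlt2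
        have : J * (2 * m + 1) ≤ j * (2 * m + 1) := Nat.mul_le_mul_right _ hlt2.le
        omega
      have h1 := hchain j (by omega)
      have h2 : γ ^ J ≤ γ ^ j := pow_le_pow_of_le_one hγ.le hγ1.le hjJ
      have h3 : γ ^ J * M ≤ γ ^ j * M := mul_le_mul_of_nonneg_right h2 hM0.le
      have h4 : x (t - j * (2 * m + 1)) ≤ X0 :=
        Finset.single_le_sum (f := fun i => x i) (fun i _ => (hp i).le)
          (Finset.mem_range.2 (by
            have : (j + 1) * (2 * m + 1) = j * (2 * m + 1) + (2 * m + 1) := by ring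
            omega))
      linarith
  obtain ⟨s, hs⟩ : ∃ s, t = s + J * (2 * m + 1) := ⟨t - J * (2 * m + 1), by omega⟩
  have hbig : ∀ j ≤ J, R ≤ x (s + j * (2 * m + 1)) := by
    intro j hj
    have h0 : (J - j) * (2 * m + 1) + j * (2 * m + 1) = J * (2 * m + 1) := by
      rw [← add_mul]; congr 1; omega
    have h1 := hchain (J - j) (by omega)
    have e1 : t - (J - j) * (2 * m + 1) = s + j * (2 * m + 1) := by omega
    rw [e1] at h1
    have h2 : γ ^ J ≤ γ ^ (J - j) := pow_le_pow_of_le_one hγ.le hγ1.le (Nat.sub_le _ _)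
    have h3 : γ ^ J * M ≤ γ ^ (J - j) * M := mul_le_mul_of_nonneg_right h2 hM0.le
    linarith
  have hst := stages hγ hm hx R q M hR1 hRq hq0 hq1 s J n₁ n₂ hn₁ hn₁0 hn₂ hJ
    (by rw [← hs]; exact hrec) hbig m le_rfl (m * (n₁ + n₂)) le_rfl (by omega)
  -- final contradiction
  have hfin := hx.2 (s + (J - 1) * (2 * m + 1))
  have hJ1 : (J - 1) * (2 * m + 1) + (2 * m + 1) = J * (2 * m + 1) := by
    have : (J - 1) + 1 = J := by omega
    conv_rhs => rw [← this]
    ring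
  have e1 : s + (J - 1) * (2 * m + 1) + 2 * m + 1 = t := by omega
  have e2 : s + (J - 1) * (2 * m + 1) + 2 * m - 1 = s + 4 * m + m * (n₁ + n₂) * (2 * m + 1) := by
    have : J * (2 * m + 1) = m * (n₁ + n₂) * (2 * m + 1) + (4 * m + 2) := by rw [hJ]; ring
    omega
  rw [e1, e2, ← hM] at hfin
  have h1 : x (s + (J - 1) * (2 * m + 1)) ≤ M := hrec _ (by omega)
  have h2 : x (s + (J - 1) * (2 * m + 1)) / x (s + 4 * m + m * (n₁ + n₂) * (2 * m + 1)) ≤ M / R :=
    div_le_div₀ hM0.le h1 hR0 hst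
  have h3 : M ≤ γ + M / R := by linarith
  have h4 : M * (R - 1) ≤ γ * R := by
    have h5 := mul_le_mul_of_nonneg_right h3 hR0.le
    have h6 : (γ + M / R) * R = γ * R + M := by field_simp
    rw [h6] at h5
    linarith
  have h5 : γ * R < M * (R - 1) := by
    have h6 : γ * R / (R - 1) < M := by linarith
    rwa [div_lt_iff₀ (by linarith)] at h6
  linarith

/-- the case `γ ≥ 1` -/
lemma bounded_ge (hγ1 : 1 ≤ γ) (hm : 1 ≤ m) (hx : IsSolution γ m x) :
    ∃ C, ∀ n, x n ≤ C := by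
  have hγ : 0 < γ := by linarith
  have hp := pos hγ hm hx
  -- `ε`
  have hgt : ∀ n, 2 * m + 1 ≤ n → 0 < x n - γ := by
    intro n hn
    obtain ⟨k, rfl⟩ : ∃ k, n = k + 2 * m + 1 := ⟨n - (2 * m + 1), by omega⟩
    rw [hx.2 k]
    have := div_pos (hp k) (hp (k + 2 * m - 1))
    linarith
  obtain ⟨ε₁, hε₁, hε₁'⟩ : ∃ ε : ℝ, 0 < ε ∧ ∀ n ∈ Finset.range (4 * m + 2), 2 * m + 1 ≤ n →
      ε ≤ x n - γ := by
    obtain ⟨n₀, hn₀, hmin⟩ := Finset.exists_min_image
      ((Finset.range (4 * m + 2)).filter (fun n => 2 * m + 1 ≤ n)) (fun n => x n - γ)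
      ⟨2 * m + 1, by simp; omega⟩
    exact ⟨x n₀ - γ, hgt n₀ (Finset.mem_filter.1 hn₀).2, fun n hn hn' =>
      hmin n (Finset.mem_filter.2 ⟨hn, hn'⟩)⟩
  set X0 : ℝ := ∑ i ∈ Finset.range (4 * m + 2), x i with hX0
  have hX00 : 0 < X0 := Finset.sum_pos (fun i _ => hp i) ⟨0, by simp⟩
  set ε : ℝ := min 1 (min ε₁ (γ / X0)) with hε
  have hε0 : 0 < ε := lt_min one_pos (lt_min hε₁ (by positivity))
  have hε1 : ε ≤ 1 := min_le_left _ _
  have hεa : ε ≤ ε₁ := (min_le_right _ _).trans (min_le_left _ _)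
  have hεb : ε ≤ γ / X0 := (min_le_right _ _).trans (min_le_right _ _)
  have key : ∀ n, 2 * m + 1 ≤ n → γ + ε ≤ x n ∧ x n ≤ 1 + γ / ε := by
    intro n
    induction n using Nat.strong_induction_on with
    | _ n ih =>
    intro hn
    by_cases hn2 : n < 4 * m + 2
    · have h1 := hε₁' n (Finset.mem_range.2 hn2) hn
      refine ⟨by linarith, ?_⟩
      have h2 : x n ≤ X0 := Finset.single_le_sum (f := fun i => x i) (fun i _ => (hp i).le)
        (Finset.mem_range.2 hn2)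
      have h3 : X0 ≤ γ / ε := by
        rw [le_div_iff₀ hε0]
        rw [le_div_iff₀ hX00] at hεb
        linarith
      linarith
    · obtain ⟨k, rfl⟩ : ∃ k, n = k + 2 * m + 1 := ⟨n - (2 * m + 1), by omega⟩
      obtain ⟨h1, h2⟩ := ih k (by omega) (by omega)
      obtain ⟨h3, h4⟩ := ih (k + 2 * m - 1) (by omega) (by omega)
      rw [hx.2 k]
      have hL0 : 0 < γ + ε := by linarith
      have hU : 1 + γ / ε = (γ + ε) / ε := by field_simp; ring
      have hU0 : 0 < 1 + γ / ε := by positivity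
      constructor
      · have h5 : ε ≤ x k / x (k + 2 * m - 1) := by
          rw [le_div_iff₀ (hp _)]
          calc ε * x (k + 2 * m - 1) ≤ ε * (1 + γ / ε) := mul_le_mul_of_nonneg_left h4 hε0.le
            _ = γ + ε := by field_simp; ring
            _ ≤ x k := h1
        linarith
      · have h5 : x k / x (k + 2 * m - 1) ≤ (1 + γ / ε) / (γ + ε) :=
          div_le_div₀ hU0.le h2 hL0 h3
        have h6 : (1 + γ / ε) / (γ + ε) = 1 / ε := by
          rw [hU]
          field_simp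
        rw [h6] at h5
        have h7 : γ + 1 / ε ≤ 1 + γ / ε := by
          have h8 : (1 + γ / ε) - (γ + 1 / ε) = (γ - 1) * (1 - ε) / ε := by
            field_simp
            ring
          have h9 : 0 ≤ (γ - 1) * (1 - ε) / ε :=
            div_nonneg (mul_nonneg (by linarith) (by linarith)) hε0.le
          linarith
        linarith
  refine ⟨max X0 (1 + γ / ε), fun n => ?_⟩
  by_cases hn : 2 * m + 1 ≤ n
  · exact (key n hn).2.trans (le_max_right _ _)
  · exact (Finset.single_le_sum (f := fun i => x i) (fun i _ => (hp i).le)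
      (Finset.mem_range.2 (by omega))).trans (le_max_left _ _)

end

/-- **Answer to Q1: true.** For every `γ > 0` and `m ≥ 1` every positive solution of
`x_{n+1} = γ + x_{n-2m} / x_{n-1}` is bounded. -/
theorem result (γ : ℝ) (hγ : 0 < γ) (m : ℕ) (hm : 1 ≤ m) (x : ℕ → ℝ) (hx : IsSolution γ m x) :
    ∃ C : ℝ, ∀ n, x n ≤ C := by
  rcases lt_or_ge γ 1 with h | h
  · exact bounded_lt hγ h hm hx
  · exact bounded_ge h hm hx

end Pool.Agent.Results.MP_2c59d0_an.AlwaysBounded
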